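import Mathlib

set_option autoImplicit false
set_option linter.unusedSectionVars false
set_option linter.unusedVariables false

namespace Pool.Agent.Results.MP_89f45c_al.PointModules

universe u v

open Finset SkewMonoidAlgebra

section Abstract

variable {D : Type u} {R : Type v} [DivisionRing D] [Ring R]

/-- The left ideal `I` of the ring `R` is a point over the division ring `D` (mapped to `R` by `ι`):
it is proper and `R = D + I`, i.e. `R / I` is one-dimensional over `D`. -/
def IsPoint (ι : D →+* R) (I : Ideal R) : Prop := I ≠ ⊤ ∧ ∀ r : R, ∃ c : D, r - ι c ∈ I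

/-- The left ideal `{r | r c ∈ I}`. -/
def conj (I : Ideal R) (c : R) : Ideal R := Submodule.comap (LinearMap.toSpanSingleton R R c) I

theorem mem_conj {I : Ideal R} {c r : R} : r ∈ conj I c ↔ r * c ∈ I := Iff.rfl

theorem simple_of_point {ι : D →+* R} {I : Ideal R} (h : IsPoint ι I) :
    IsSimpleModule R (R ⧸ I) := by
  refine isSimpleModule_iff_isCoatom.2 (Ideal.isMaximal_iff.2 ⟨fun h1 => ?_,
    fun J f hJ h1 h2 => ?_⟩).1
  · exact h.1 ((Ideal.eq_top_iff_one I).2 h1)
  · obtain ⟨c, hc⟩ := h.2 f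
    have hc0 : c ≠ 0 := by
      rintro rfl
      rw [map_zero, sub_zero] at hc
      exact h1 hc
    have h4 := J.mul_mem_left (ι c⁻¹) (sub_mem h2 (hJ hc))
    rwa [sub_sub_cancel, ← map_mul, inv_mul_cancel₀ hc0, map_one] at h4

/-- The abstract theorem. -/
theorem abstract (ι : D →+* R) (A : Set (Ideal R)) (hfin : A.Finite)
    (hpt : ∀ I ∈ A, IsPoint ι I) (hconj : ∀ I ∈ A, ∀ c : D, c ≠ 0 → conj I (ι c) ∈ A)
    (J : Ideal R) : sInf {I ∈ A | J ≤ I} = J ⊔ sInf A := by
  apply le_antisymm
  swap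
  · refine sup_le (le_sInf fun I hI => hI.2) (le_sInf fun I hI => sInf_le hI.1)
  intro f hf
  have H : ∀ I ∈ A, J ≤ I → f ∈ I := fun I hI hJ => (Submodule.mem_sInf.1 hf) I ⟨hI, hJ⟩
  classical
  have hfi : Finite A := hfin
  have := Fintype.ofFinite A
  have hsimp : ∀ a : A, IsSimpleModule R (R ⧸ a.1) := fun a => simple_of_point (hpt a.1 a.2)
  let φ : R →ₗ[R] ((a : A) → R ⧸ a.1) := LinearMap.pi fun a : A => a.1.mkQ
  by_contra hc
  have h1 : (Submodule.map φ J).mkQ (φ f) ∉ Module.jacobson R _ := by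
    rw [IsSemisimpleModule.jacobson_eq_bot, Submodule.mem_bot, Submodule.mkQ_apply,
      Submodule.Quotient.mk_eq_zero]
    rintro ⟨g, hg, h⟩
    refine hc ?_
    rw [Submodule.mem_sup]
    refine ⟨g, hg, f - g, ?_, by abel⟩
    rw [Submodule.mem_sInf]
    intro I hI
    exact (Submodule.Quotient.eq _).1 (congrFun h ⟨I, hI⟩).symm
  simp only [Module.jacobson, Submodule.mem_sInf, not_forall] at h1
  obtain ⟨N, hN, h1⟩ := h1
  have := isSimpleModule_iff_isCoatom.2 hN
  let π := N.mkQ ∘ₗ (Submodule.map φ J).mkQ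
  have h2 : π (φ f) ≠ 0 := fun h => h1 ((Submodule.Quotient.mk_eq_zero _).1 h)
  obtain ⟨a, ha⟩ : ∃ a, π ∘ₗ LinearMap.single _ _ a ≠ 0 := by
    by_contra! h
    exact h2 (by rw [LinearMap.pi_ext' (f := π) (g := 0) fun a => by simpa using h a]; rfl)
  have hb := LinearMap.bijective_of_ne_zero ha
  obtain ⟨g, hg⟩ := hb.2 (π (φ 1))
  obtain ⟨g, rfl⟩ := a.1.mkQ_surjective g
  have h3 : ∀ h, π (φ h) = 0 ↔ h * g ∈ a.1 := fun h => by
    rw [← mul_one h, ← smul_eq_mul, map_smul, map_smul, ← hg, ← map_smul,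
      map_eq_zero_iff _ hb.1, ← map_smul, Submodule.mkQ_apply, Submodule.Quotient.mk_eq_zero,
      smul_eq_mul, smul_eq_mul, mul_one]
  obtain ⟨c, hc'⟩ := (hpt a.1 a.2).2 g
  have h3' : ∀ h, π (φ h) = 0 ↔ h * ι c ∈ a.1 := fun h => by
    rw [h3]
    have h5 : h * (g - ι c) ∈ a.1 := a.1.mul_mem_left h hc'
    rw [mul_sub] at h5
    constructor
    · intro h6
      have := a.1.sub_mem h6 h5
      rwa [sub_sub_cancel] at this
    · intro h6
      have := a.1.add_mem h5 h6
      rwa [sub_add_cancel] at this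
  have h4 : c ≠ 0 := by
    rintro rfl
    exact h2 ((h3' f).2 (by rw [map_zero, mul_zero]; exact a.1.zero_mem))
  refine h2 ((h3' f).2 (H (conj a.1 (ι c)) (hconj a.1 a.2 c h4) fun g hg => (h3' g).1 ?_))
  simp [π, (Submodule.Quotient.mk_eq_zero _).2 (Submodule.mem_map_of_mem (f := φ) hg)]

end Abstract

section Skew

variable {D : Type u} {M : Type v} [DivisionRing D] [Monoid M] [MulSemiringAction M D]

/-- `χ` is a cocycle (a point of the skew monoid algebra of `M` over `D`). -/
def IsCocycle (χ : M → D) : Prop := χ 1 = 1 ∧ ∀ m n : M, χ (m * n) = (m • χ n) * χ m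

/-- The value of an element of the skew monoid algebra at the cocycle `χ`: the coefficients stand on
the left. -/
noncomputable def eval (χ : M → D) (f : SkewMonoidAlgebra D M) : D := f.sum fun m c => c * χ m

/-- The conjugate of the cocycle `χ` by `c`. -/
def conjugate (χ : M → D) (c : D) : M → D := fun m => (m • c) * χ m * c⁻¹

omit [MulSemiringAction M D] in
lemma eval_single (χ : M → D) (m : M) (c : D) : eval χ (single m c) = c * χ m :=
  sum_single_index (zero_mul _)

omit [MulSemiringAction M D] in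
lemma eval_add (χ : M → D) (f g : SkewMonoidAlgebra D M) :
    eval χ (f + g) = eval χ f + eval χ g := sum_add_index' (by simp) (by simp [add_mul])

lemma eval_mul {χ : M → D} (h : IsCocycle χ) (g f : SkewMonoidAlgebra D M) :
    eval χ (g * f) = eval χ (g * single 1 (eval χ f)) := by
  induction g using SkewMonoidAlgebra.induction_on' with
  | add g g' h1 h2 => rw [add_mul, add_mul, eval_add, eval_add, h1, h2]
  | single k c =>
    induction f using SkewMonoidAlgebra.induction_on' with
    | add f f' h1 h2 => rw [mul_add, eval_add, h1, h2, eval_add, single_add, mul_add, eval_add]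
    | single l d =>
      rw [single_mul_single, eval_single, eval_single, single_mul_single, eval_single, h.2,
        mul_one, smul_mul']
      simp only [mul_assoc]

lemma eval_mul_const {χ : M → D} {c : D} (hc : c ≠ 0) (g : SkewMonoidAlgebra D M) :
    eval χ (g * single 1 c) = eval (conjugate χ c) g * c := by
  induction g using SkewMonoidAlgebra.induction_on' with
  | add g g' h1 h2 => rw [add_mul, eval_add, eval_add, h1, h2, add_mul]
  | single k d =>
    rw [single_mul_single, eval_single, eval_single, mul_one, conjugate, mul_assoc d _ c,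
      inv_mul_cancel_right₀ hc, mul_assoc d]

/-- The left ideal of the elements which vanish at `χ`. -/
noncomputable def van (χ : M → D) (h : IsCocycle χ) : Ideal (SkewMonoidAlgebra D M) where
  carrier := {f | eval χ f = 0}
  add_mem' h1 h2 := by
    have h1' : eval χ _ = 0 := h1
    have h2' : eval χ _ = 0 := h2
    show eval χ _ = 0
    rw [eval_add, h1', h2', add_zero]
  zero_mem' := by
    show eval χ 0 = 0
    have := eval_single χ 1 (0 : D)
    rwa [single_zero, zero_mul] at this
  smul_mem' g f hf := by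
    have h1 : eval χ f = 0 := hf
    show eval χ (g * f) = 0
    rw [eval_mul h, h1, single_zero, mul_zero]
    have := eval_single χ 1 (0 : D)
    rwa [single_zero, zero_mul] at this

lemma mem_van {χ : M → D} {h : IsCocycle χ} {f : SkewMonoidAlgebra D M} :
    f ∈ van χ h ↔ eval χ f = 0 := Iff.rfl

lemma eval_sub {χ : M → D} (h : IsCocycle χ) (f g : SkewMonoidAlgebra D M) :
    eval χ (f - g) = eval χ f - eval χ g := by
  have := eval_add χ (f - g) g
  rw [sub_add_cancel] at this
  rw [this, add_sub_cancel_right]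

lemma isPoint_van {χ : M → D} (h : IsCocycle χ) :
    IsPoint (SkewMonoidAlgebra.singleOneRingHom : D →+* SkewMonoidAlgebra D M) (van χ h) := by
  refine ⟨fun h1 => ?_, fun r => ⟨eval χ r, ?_⟩⟩
  · have h2 : (1 : SkewMonoidAlgebra D M) ∈ van χ h := by rw [h1]; trivial
    have h3 : eval χ (1 : SkewMonoidAlgebra D M) = 0 := h2
    have h4 := eval_single χ 1 (1 : D)
    rw [h.1, mul_one] at h4
    exact one_ne_zero (h4.symm.trans h3)
  · show eval χ (r - single 1 (eval χ r)) = 0
    rw [eval_sub h, eval_single, h.1, mul_one, sub_self]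

/-- The strong Finitesatz for the set `S` of cocycles: for every left ideal `J`, an element vanishes
at the common zeros of `J` in `S` if and only if it is the sum of an element of `J` and an element
vanishing on `S`. -/
def StrongFinitesatz (S : Set (M → D)) : Prop :=
  ∀ (J : Ideal (SkewMonoidAlgebra D M)) (f : SkewMonoidAlgebra D M),
    (∀ χ ∈ S, (∀ g ∈ J, eval χ g = 0) → eval χ f = 0) ↔
      ∃ g ∈ J, ∃ h, (∀ χ ∈ S, eval χ h = 0) ∧ f = g + h

/-- The theorem for skew monoid algebras. -/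
theorem skew (S : Set (M → D)) (hfin : S.Finite) (hS : ∀ χ ∈ S, IsCocycle χ)
    (hconj : ∀ χ ∈ S, ∀ c : D, c ≠ 0 → conjugate χ c ∈ S)
    (J : Ideal (SkewMonoidAlgebra D M)) (f : SkewMonoidAlgebra D M) :
    (∀ χ ∈ S, (∀ g ∈ J, eval χ g = 0) → eval χ f = 0) ↔
      ∃ g ∈ J, ∃ h, (∀ χ ∈ S, eval χ h = 0) ∧ f = g + h := by
  refine ⟨fun H => ?_, ?_⟩
  swap
  · rintro ⟨g, hg, h, hh, rfl⟩ χ hχ hJ
    rw [eval_add, hJ g hg, hh χ hχ, add_zero]
  classical
  let w : (M → D) → Ideal (SkewMonoidAlgebra D M) := fun χ =>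
    if h : IsCocycle χ then van χ h else ⊤
  have hw : ∀ χ (h : IsCocycle χ), w χ = van χ h := fun χ h => dif_pos h
  have hwm : ∀ χ ∈ S, ∀ r, r ∈ w χ ↔ eval χ r = 0 := fun χ hχ r => by
    rw [hw χ (hS χ hχ)]; exact Iff.rfl
  have hab := abstract (SkewMonoidAlgebra.singleOneRingHom : D →+* SkewMonoidAlgebra D M)
    (w '' S) (hfin.image w) ?_ ?_ J
  · have h1 : f ∈ sInf {I ∈ w '' S | J ≤ I} := by
      rw [Submodule.mem_sInf]
      rintro _ ⟨⟨χ, hχ, rfl⟩, hJ⟩
      rw [hwm χ hχ]
      exact H χ hχ fun g hg => (hwm χ hχ g).1 (hJ hg)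
    rw [hab, Submodule.mem_sup] at h1
    obtain ⟨g, hg, h, hh, e⟩ := h1
    refine ⟨g, hg, h, fun χ hχ => ?_, e.symm⟩
    rw [← hwm χ hχ]
    exact (Submodule.mem_sInf.1 hh) _ ⟨χ, hχ, rfl⟩
  · rintro _ ⟨χ, hχ, rfl⟩
    rw [hw χ (hS χ hχ)]
    exact isPoint_van (hS χ hχ)
  · rintro _ ⟨χ, hχ, rfl⟩ c hc
    refine ⟨conjugate χ c, hconj χ hχ c hc, ?_⟩
    ext r
    rw [hwm _ (hconj χ hχ c hc), mem_conj, hwm χ hχ]
    show _ ↔ eval χ (r * single 1 c) = 0
    rw [eval_mul_const hc, mul_eq_zero]
    simp [hc]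

lemma isCocycle_conjugate {χ : M → D} (h : IsCocycle χ) {c : D} (hc : c ≠ 0) :
    IsCocycle (conjugate χ c) := by
  constructor
  · rw [conjugate, one_smul, h.1, mul_one, mul_inv_cancel₀ hc]
  · intro m n
    have h1 : (m • c⁻¹) * (m • c) = 1 := by rw [← smul_mul', inv_mul_cancel₀ hc, smul_one]
    simp only [conjugate, h.2, mul_smul, smul_mul']
    calc m • n • c * (m • χ n * χ m) * c⁻¹
        = m • n • c * m • χ n * 1 * (χ m * c⁻¹) := by simp only [mul_assoc, mul_one]
      _ = m • n • c * m • χ n * m • c⁻¹ * (m • c * χ m * c⁻¹) := by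
          rw [← h1]; simp only [mul_assoc]

/-- For a finite division ring and a finitely generated monoid there are finitely many cocycles. -/
lemma finite_cocycles [Finite D] [Monoid.FG M] : {χ : M → D | IsCocycle χ}.Finite := by
  obtain ⟨T, hT⟩ := (Monoid.fg_def.1 ‹Monoid.FG M›)
  let r : {χ : M → D | IsCocycle χ} → ({x // x ∈ T} → D) := fun χ t => χ.1 t.1
  have hr : Function.Injective r := by
    rintro ⟨χ, hχ⟩ ⟨ψ, hψ⟩ h
    ext1
    funext m
    have hm : m ∈ Submonoid.closure (T : Set M) := by rw [hT]; trivial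
    induction hm using Submonoid.closure_induction with
    | mem x hx => exact congrFun h ⟨x, Finset.mem_coe.1 hx⟩
    | one => exact hχ.1.trans hψ.1.symm
    | mul x y _ _ hx hy =>
      have hx' : χ x = ψ x := hx
      have hy' : χ y = ψ y := hy
      show χ (x * y) = ψ (x * y)
      rw [hχ.2, hψ.2, hx', hy']
  exact Finite.of_injective r hr

end Skew

variable {F : Type u} [Field F] (σ : F ≃+* F) {n : ℕ}

def Nm (k : ℕ) (a : F) : F := ∏ t ∈ range k, (σ ^ t) a

def mono (a : Fin n → F) (k : Fin n → ℕ) : F :=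
  ∏ i, (σ ^ ∑ j ∈ univ.filter (· < i), k j) (Nm σ (k i) (a i))

def Aff : Set (Fin n → F) := {a | ∀ i j, i ≠ j → σ (a j) * a i = σ (a i) * a j}

noncomputable def ev (a : Fin n → F) (f : SkewMonoidAlgebra F (Multiplicative (Fin n → ℕ))) : F :=
  f.sum fun k c => c * mono σ a k.toAdd

lemma Nm_add (k l : ℕ) (a : F) : Nm σ (k + l) a = Nm σ k a * (σ ^ k) (Nm σ l a) := by
  simp only [Nm, prod_range_add, pow_add, map_prod, RingAut.mul_apply]

lemma fix {c : F} (h : σ c = c) (t : ℕ) : (σ ^ t) c = c := by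
  induction t with
  | zero => rfl
  | succ t ih => rw [pow_succ]; exact (congrArg (σ ^ t) h).trans ih

lemma mono_const (a : F) (k : Fin n → ℕ) : mono σ (fun _ => a) k = Nm σ (∑ i, k i) a := by
  induction n with
  | zero => simp [mono, Nm]
  | succ n ih =>
    rw [Fin.sum_univ_castSucc, Nm_add, ← ih, mono, Fin.prod_univ_castSucc, mono]
    simp [sum_filter, Fin.sum_univ_castSucc, not_lt.2 (Fin.castSucc_lt_last _).le]

lemma mono_eq (l : Fin n → F) (hl : ∀ i, σ (l i) = l i) (a : F) (k : Fin n → ℕ) :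
    mono σ (fun i => l i * a) k = (∏ i, l i ^ k i) * Nm σ (∑ i, k i) a := by
  rw [← mono_const, mono, mono, ← prod_mul_distrib]
  refine prod_congr rfl fun i _ => ?_
  simp only [Nm, map_mul, prod_mul_distrib, fix σ (hl i), prod_const, card_range, map_pow]

lemma param {a : Fin n → F} (ha : a ∈ Aff σ) :
    ∃ (l : Fin n → F) (b : F), (∀ i, σ (l i) = l i) ∧ a = fun i => l i * b := by
  by_cases h : a = 0
  · exact ⟨1, 0, by simp, by ext; simp [h]⟩
  obtain ⟨j, hj⟩ := Function.ne_iff.1 h
  have hj' : a j ≠ 0 := hj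
  refine ⟨fun i => a i / a j, a j, fun i => ?_, by ext; field_simp⟩
  by_cases hi : i = j
  · simp [hi, hj']
  rw [map_div₀, div_eq_div_iff (by simpa using hj') hj', ← ha i j hi, mul_comm]

lemma mono_add {a : Fin n → F} (ha : a ∈ Aff σ) (k k' : Fin n → ℕ) :
    mono σ a (k + k') = mono σ a k * (σ ^ ∑ i, k i) (mono σ a k') := by
  obtain ⟨l, b, hl, rfl⟩ := param σ ha
  simp only [mono_eq σ l hl, Pi.add_apply, sum_add_distrib, Nm_add, pow_add, prod_mul_distrib,
    map_mul, map_prod, map_pow, fix σ (hl _)]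
  ring

lemma mono_conj {a : Fin n → F} (ha : a ∈ Aff σ) {c : F} (hc : c ≠ 0) : ∃ b ∈ Aff σ,
    ∀ k : Fin n → ℕ, mono σ b k * c = mono σ a k * (σ ^ ∑ i, k i) c := by
  obtain ⟨l, b, hl, rfl⟩ := param σ ha
  refine ⟨fun i => l i * (σ c * b / c), fun i j _ => by simp only [map_mul, hl]; ring, fun k => ?_⟩
  rw [mono_eq σ l hl, mono_eq σ l hl, mul_assoc, mul_assoc]
  congr 1
  induction ∑ i, k i with
  | zero => simp [Nm]
  | succ m ih =>
    have : (σ ^ m) c ≠ 0 := (map_ne_zero _).2 hc
    simp only [Nm, prod_range_succ] at ih ⊢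
    rw [mul_right_comm, ih, map_div₀, map_mul, pow_succ, RingAut.mul_apply]
    field_simp


/-- The assertion of Q1 for the automorphism `σ` and `n` variables. -/
def Q1For (σ : F ≃+* F) (n : ℕ) [MulSemiringAction (Multiplicative (Fin n → ℕ)) F] : Prop :=
  ∀ (J : Ideal (SkewMonoidAlgebra F (Multiplicative (Fin n → ℕ))))
    (f : SkewMonoidAlgebra F (Multiplicative (Fin n → ℕ))),
    (∀ a ∈ Aff σ, (∀ g ∈ J, ev σ a g = 0) → ev σ a f = 0) ↔
      ∃ g ∈ J, ∃ h, (∀ a ∈ Aff σ, ev σ a h = 0) ∧ f = g + h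

/-- Q1, for finite fields. -/
theorem finitesatz [Finite F] [MulSemiringAction (Multiplicative (Fin n → ℕ)) F]
    (hs : ∀ (k : Multiplicative (Fin n → ℕ)) (c : F), k • c = (σ ^ ∑ i, k.toAdd i) c)
    (J : Ideal (SkewMonoidAlgebra F (Multiplicative (Fin n → ℕ))))
    (f : SkewMonoidAlgebra F (Multiplicative (Fin n → ℕ))) :
    (∀ a ∈ Aff σ, (∀ g ∈ J, ev σ a g = 0) → ev σ a f = 0) ↔
      ∃ g ∈ J, ∃ h, (∀ a ∈ Aff σ, ev σ a h = 0) ∧ f = g + h := by
  let w : (Fin n → F) → Multiplicative (Fin n → ℕ) → F := fun a k => mono σ a k.toAdd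
  have key := skew (w '' Aff σ) ((Set.toFinite (Aff σ)).image w) ?_ ?_ J f
  · simp only [Set.forall_mem_image] at key
    exact key
  · rintro _ ⟨a, ha, rfl⟩
    refine ⟨by simp [w, mono, Nm], fun k k' => ?_⟩
    show mono σ a (k * k').toAdd = (k • mono σ a k'.toAdd) * mono σ a k.toAdd
    rw [hs, toAdd_mul, mono_add σ ha, mul_comm]
  · rintro _ ⟨a, ha, rfl⟩ c hc
    obtain ⟨b, hb, h⟩ := mono_conj σ ha hc
    refine ⟨b, hb, ?_⟩
    funext k
    show mono σ b k.toAdd = (k • c) * mono σ a k.toAdd * c⁻¹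
    rw [eq_mul_inv_iff_mul_eq₀ hc, h, hs, mul_comm]

/-- The theorem on points of rings. -/
def PointTheorem (D : Type u) (R : Type v) [DivisionRing D] [Ring R] : Prop :=
  ∀ (ι : D →+* R) (A : Set (Ideal R)),
    A.Finite → (∀ I ∈ A, IsPoint ι I) → (∀ I ∈ A, ∀ c : D, c ≠ 0 → conj I (ι c) ∈ A) →
    ∀ J : Ideal R, sInf {I ∈ A | J ≤ I} = J ⊔ sInf A

/-- **Finitesatz for point modules.**

(1) Let `R` be a ring, `D` a division ring mapped to `R`, and `A` a finite set of left ideals `I` of
`R` with `R / I` one-dimensional over `D` (points), closed under `I ↦ {r | r c ∈ I}` for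
`c ∈ D`, `c ≠ 0`. For every left ideal `J` of `R`, the intersection of the members of `A` containing
`J` is `J + ⋂ A`.

(2) Let a monoid `M` act on a division ring `D` by ring endomorphisms and let `S` be a finite set of
cocycles `M → D` closed under conjugation. For every left ideal `J` of the skew monoid algebra an
element vanishes at the common zeros of `J` in `S` if and only if it is the sum of an element of `J`
and an element vanishing on `S`.

(3) In particular, for a finitely generated monoid acting on a finite field (e.g. `x_i a = σ_i(a) x_i`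
with different automorphisms, or free variables) this holds for the set of all cocycles.

(4) (Q1) For every finite field `F`, every automorphism `σ`, every `n` and every left ideal `J` of
`F[x_1, …, x_n; σ]`, a polynomial vanishes on the zero set of `J` in the `σ`-affine space if and only
if it is the sum of an element of `J` and a polynomial vanishing on the whole space. -/
theorem result :
    (∀ (D : Type u) (R : Type v) [DivisionRing D] [Ring R], PointTheorem D R) ∧
    (∀ (D : Type u) (M : Type v) [DivisionRing D] [Monoid M] [MulSemiringAction M D]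
      (S : Set (M → D)), S.Finite → (∀ χ ∈ S, IsCocycle χ) →
      (∀ χ ∈ S, ∀ c : D, c ≠ 0 → conjugate χ c ∈ S) → StrongFinitesatz S) ∧
    (∀ (F : Type u) (M : Type v) [Field F] [Finite F] [Monoid M] [Monoid.FG M]
      [MulSemiringAction M F], StrongFinitesatz {χ : M → F | IsCocycle χ}) ∧
    (∀ (F : Type u) [Field F] [Finite F] (σ : F ≃+* F) (n : ℕ)
      [MulSemiringAction (Multiplicative (Fin n → ℕ)) F],
      (∀ (k : Multiplicative (Fin n → ℕ)) (c : F), k • c = (σ ^ ∑ i, k.toAdd i) c) →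
      Q1For σ n) :=
  ⟨fun _ _ _ _ ι A h1 h2 h3 J => abstract ι A h1 h2 h3 J,
    fun _ _ _ _ _ S h1 h2 h3 J f => skew S h1 h2 h3 J f,
    fun _ _ _ _ _ _ _ J f => skew {χ | IsCocycle χ} finite_cocycles (fun _ h => h)
      (fun _ h _ hc => isCocycle_conjugate h hc) J f,
    fun _ _ _ σ _ _ hs J f => finitesatz σ hs J f⟩

end Pool.Agent.Results.MP_89f45c_al.PointModules
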